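import Pool.Agent.H77.KG.Targets

/-!
# Row AUT of the board kgr_modules (MP_9d0bb7_lc): connected groups of field automorphisms
-/

set_option autoImplicit false

open Set Pool.Agent.H77.BC Pool.Agent.H77.BD Pool.Agent.H77.KG Pool.Agent.H77.BCP

namespace Pool.Agent.H91.KG

theorem pf_AUT (hFCO : T_FCO) : T_AUT := by
  intro M U K G _ _ _ _ _ _ _ α hα hconn
  classical
  let _ : MulAction G K :=
    { smul := fun g x => α g x
      one_smul := fun x => by
        change α 1 x = x
        rw [map_one]
        rfl
      mul_smul := fun g h x => by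
        change α (g * h) x = α g (α h x)
        rw [map_mul]
        rfl }
  have : DA U G K := ⟨hα⟩
  have hfix : ∀ x : K, {y : K | ∃ g : G, y = α g x}.Finite → ∀ g, α g x = x := by
    intro x hx g
    refine hFCO U (⊤ : Subgroup G) x hconn (hx.subset ?_) g (Subgroup.mem_top g)
    rintro y ⟨g, -, rfl⟩
    exact ⟨g, rfl⟩
  let E : Subfield K :=
    { carrier := {x | ∀ g, α g x = x}
      mul_mem' := fun {a b} ha hb g => by rw [map_mul, ha g, hb g]
      one_mem' := fun g => map_one _
      add_mem' := fun {a b} ha hb g => by rw [map_add, ha g, hb g]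
      zero_mem' := fun g => map_zero _
      neg_mem' := fun {a} ha g => by rw [map_neg, ha g]
      inv_mem' := fun a ha g => by rw [map_inv₀, ha g] }
  have hE : ∀ x, x ∈ E ↔ ∀ g, α g x = x := fun x => Iff.rfl
  have hED : U.D (E : Set K) := by
    have h : U.D {x : K | ∀ g : G, α g x = x} := by
      refine D_forall (p := fun (x : K) (g : G) => α g x = x) ?_
      exact D_eqf (DFn_comp (f := fun z : K × G => (z.2, z.1)) hα DFn_swap) DFn_fst
    exact h
  have hinf : (E : Set K).Infinite := by
    obtain ⟨p, hp⟩ := CharP.exists K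
    rcases CharP.char_is_prime_or_zero K p with hpp | rfl
    · have : Fact p.Prime := ⟨hpp⟩
      have hroot : ∀ (m : ℕ) (x : K), 1 ≤ m → x ^ p ^ m = x → x ∈ E := by
        intro m x hm hx
        rw [hE]
        apply hfix
        have h1 : (Polynomial.X ^ p ^ m - Polynomial.X : Polynomial K) ≠ 0 :=
          FiniteField.X_pow_card_pow_sub_X_ne_zero K (by omega) hpp.one_lt
        refine ((Polynomial.X ^ p ^ m - Polynomial.X : Polynomial K).rootSet_finite K).subset ?_
        rintro y ⟨g, rfl⟩
        rw [Polynomial.mem_rootSet]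
        refine ⟨h1, ?_⟩
        rw [map_sub, map_pow, Polynomial.aeval_X, ← map_pow, hx, sub_self]
      intro hfin
      have hfin' : Finite E := hfin.to_subtype
      let f : E → E := fun y => y ^ p - y
      have hns : ¬ Function.Surjective f := by
        intro hs
        have hi := Finite.injective_iff_surjective.mpr hs
        have h01 : f 0 = f 1 := by
          simp only [f, one_pow, sub_self, zero_pow hpp.ne_zero]
        exact zero_ne_one (hi h01)
      rw [Function.Surjective] at hns
      push Not at hns
      obtain ⟨x, hx⟩ := hns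
      obtain ⟨y, hy⟩ := (a_FSP U).2 p hpp hp (x : K)
      have hyE : ∀ j : ℕ, y ^ p ^ j - y ∈ E := by
        intro j
        induction j with
        | zero =>
          rw [pow_zero, pow_one, sub_self]
          exact E.zero_mem
        | succ j ih =>
          have h1 : y ^ p ^ (j + 1) - y = (x : K) + (y ^ p ^ j - y) ^ p := by
            rw [sub_pow_char, ← hy, ← pow_mul, ← pow_succ]
            ring
          rw [h1]
          exact E.add_mem x.2 (E.pow_mem ih p)
      obtain ⟨i, j, hij, h2⟩ := Finite.exists_ne_map_eq_of_infinite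
        (fun j : ℕ => (⟨y ^ p ^ j - y, hyE j⟩ : E))
      have h3 : y ^ p ^ i = y ^ p ^ j := sub_left_injective (congrArg Subtype.val h2)
      have key : ∀ i j : ℕ, i < j → y ^ p ^ i = y ^ p ^ j → y ∈ E := by
        intro i j hij h
        have h4 : y ^ p ^ j = (y ^ p ^ (j - i)) ^ p ^ i := by
          rw [← pow_mul, ← pow_add, Nat.sub_add_cancel hij.le]
        have h5 : (y - y ^ p ^ (j - i)) ^ p ^ i = 0 := by
          rw [sub_pow_char_pow, ← h4, h, sub_self]
        have h6 := eq_zero_of_pow_eq_zero h5
        exact hroot (j - i) y (by omega) (sub_eq_zero.mp h6).symm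
      have h7 : y ∈ E := by
        rcases lt_or_gt_of_ne hij with h | h
        · exact key i j h h3
        · exact key j i h h3.symm
      exact hx ⟨y, h7⟩ (Subtype.ext hy)
    · have : CharZero K := CharP.charP_to_charZero K
      exact Set.infinite_of_injective_forall_mem Nat.cast_injective (fun n => natCast_mem E n)
  have hfd : FiniteDimensional E K := a_FDE U E hED hinf
  intro g x
  apply hfix
  obtain ⟨P, hP, hPx⟩ := (Algebra.IsAlgebraic.of_finite E K).isAlgebraic x
  refine (P.rootSet_finite K).subset ?_
  rintro y ⟨g, rfl⟩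
  rw [Polynomial.mem_rootSet]
  refine ⟨hP, ?_⟩
  have h1 : ((α g : K ≃+* K) : K →+* K).comp (algebraMap E K) = algebraMap E K := by
    ext e
    exact e.2 g
  have h2 := Polynomial.hom_eval₂ P (algebraMap E K) ((α g : K ≃+* K) : K →+* K) x
  rw [h1] at h2
  rw [Polynomial.aeval_def] at hPx ⊢
  rw [hPx, map_zero] at h2
  exact h2.symm

end Pool.Agent.H91.KG
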