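import Pool.Agent.H77.KG.Targets

/-!
# Row CLA of the board kgr_modules (MP_9d0bb7_lc): minimal modules are sums of conjugates
-/

set_option autoImplicit false

open Set Pool.Agent.H77.BC Pool.Agent.H77.BD Pool.Agent.H77.KG Pool.Agent.H77.BCP

namespace Pool.Agent.H91.KG

variable {G V : Type} [Group G] [AddCommGroup V] [DistribMulAction G V]

/-- the image of `W` under `g` -/
def gW (W : AddSubgroup V) (g : G) : AddSubgroup V := W.map (DistribSMul.toAddMonoidHom V g)

theorem mem_gW {W : AddSubgroup V} {g : G} {v : V} : v ∈ gW W g ↔ ∃ w ∈ W, g • w = v := Iff.rfl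

/-- the sum of the images for the elements of `s` -/
def sW (W : AddSubgroup V) (s : Finset G) : AddSubgroup V := s.sup (gW W)

theorem mem_sW {W : AddSubgroup V} {s : Finset G} {v : V} (hv : v ∈ sW W s) :
    ∃ w : G → V, (∀ g, w g ∈ W) ∧ v = ∑ g ∈ s, g • w g := by
  classical
  induction s using Finset.induction_on generalizing v with
  | empty =>
    have h : v = 0 := by
      unfold sW at hv
      rw [Finset.sup_empty] at hv
      exact AddSubgroup.mem_bot.mp hv
    exact ⟨fun _ => 0, fun _ => W.zero_mem, by rw [h, Finset.sum_empty]⟩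
  | insert a s ha ih =>
    unfold sW at hv
    rw [Finset.sup_insert, AddSubgroup.mem_sup] at hv
    obtain ⟨y, ⟨w0, hw0, rfl⟩, z, hz, rfl⟩ := hv
    obtain ⟨w, hw, rfl⟩ := ih hz
    refine ⟨fun g => if g = a then w0 else w g, fun g => ?_, ?_⟩
    · by_cases h : g = a
      · simp only [h, if_true]
        exact hw0
      · simp only [h, if_false]
        exact hw g
    · rw [Finset.sum_insert ha]
      simp only [if_true]
      congr 1
      refine Finset.sum_congr rfl fun g hg => ?_
      have h : g ≠ a := fun h => ha (h ▸ hg)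
      simp only [h, if_false]

theorem pf_CLA (hMEX : T_MEX) (hADT : T_ADT) (hAHM : T_AHM) : T_CLA := by
  classical
  intro M U G V _ _ _ _ _ _ _ _ hmin T hTn hTD hT
  have hV := hmin.2.2.1
  obtain ⟨W, -, hW, hWc⟩ := hMEX U T (⊤ : AddSubgroup V) hmin.1 (fun t _ v _ => trivial) hV
  have hadt := hADT U V
  have hact : ∀ g : G, DFn U (fun v : V => (DistribSMul.toAddMonoidHom V g) v) := fun g =>
    DFn_act (f := fun _ : V => g) (DFn_const g) DFn_id
  have hgW : ∀ g : G, CnS U (gW W g) := fun g => ((hAHM U _ (hact g)).1 W hW.1).2.2 hWc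
  have hsD : ∀ s : Finset G, U.D (sW W s : Set V) := by
    intro s
    induction s using Finset.induction_on with
    | empty =>
      have e : (sW W (∅ : Finset G) : Set V) = {0} := by
        unfold sW
        rw [Finset.sup_empty]
        rfl
      rw [e]
      exact D_singleton _
    | insert a s ha ih =>
      have e : sW W (insert a s) = gW W a ⊔ sW W s := by
        unfold sW
        rw [Finset.sup_insert]
      rw [e]
      exact hadt.sup _ _ (hgW a).1 ih
  have hbd : BddAbove (range fun s : Finset G => U.R (sW W s : Set V)) := by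
    refine ⟨U.R (univ : Set V), ?_⟩
    rintro _ ⟨s, rfl⟩
    exact (a_RKA U).mono (hsD s) Ful.full ⟨0, (sW W s).zero_mem⟩ (subset_univ _)
  obtain ⟨s, hs⟩ := Nat.sSup_mem (range_nonempty fun s : Finset G => U.R (sW W s : Set V)) hbd
  have hmax : ∀ s' : Finset G, U.R (sW W s' : Set V) ≤ U.R (sW W s : Set V) := by
    intro s'
    have h1 : U.R (sW W s : Set V) = sSup (range fun s : Finset G => U.R (sW W s : Set V)) := hs
    rw [h1]
    exact le_csSup hbd ⟨s', rfl⟩
  have hall : ∀ g : G, gW W g ≤ sW W s := by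
    intro g
    have e : sW W (insert g s) = gW W g ⊔ sW W s := by
      unfold sW
      rw [Finset.sup_insert]
    have h1 := hmax (insert g s)
    rw [e] at h1
    have h2 : (sW W s).relIndex (gW W g ⊔ sW W s) ≠ 0 :=
      (hadt.idx _ _ (hsD s) (hadt.sup _ _ (hgW g).1 (hsD s)) le_sup_right).mpr h1
    have h3 : (sW W s).relIndex (gW W g) ≠ 0 := fun h =>
      h2 (AddSubgroup.relIndex_eq_zero_of_le_right le_sup_left h)
    have h4 : U.D ((sW W s ⊓ gW W g : AddSubgroup V) : Set V) := D_inter (hsD s) (hgW g).1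
    rw [← AddSubgroup.inf_relIndex_right, hadt.idx _ _ h4 (hgW g).1 inf_le_right] at h3
    have h5 := (hgW g).2 _ inf_le_right h4 h3
    exact inf_eq_right.mp h5
  have hinv : ∀ h : G, ∀ v ∈ sW W s, h • v ∈ sW W s := by
    intro h v hv
    obtain ⟨w, hw, rfl⟩ := mem_sW hv
    rw [Finset.smul_sum]
    refine AddSubgroup.sum_mem _ fun g _ => ?_
    rw [smul_smul]
    exact hall (h * g) ⟨w g, hw g, rfl⟩
  have htop : sW W s = ⊤ := by
    by_contra hne
    have hfin := hmin.2.2.2 (sW W s) le_top (hsD s) (fun t _ v hv => hinv t v hv) hne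
    refine hW.2.2.1 (hfin.subset fun w hw => ?_)
    exact hall 1 ⟨w, hw, one_smul G w⟩
  refine ⟨W, hW, ?_, s.card, fun i => (s.equivFin.symm i).1, ?_⟩
  · by_contra hno
    push Not at hno
    obtain ⟨t, ht, v, hv⟩ := hT
    apply hv
    have hvs : v ∈ sW W s := htop ▸ AddSubgroup.mem_top v
    obtain ⟨w, hw, rfl⟩ := mem_sW hvs
    rw [Finset.smul_sum]
    refine Finset.sum_congr rfl fun g _ => ?_
    have h1 := hno (g⁻¹ * t * g) (by simpa using hTn.conj_mem t ht g⁻¹) (w g) (hw g)
    calc t • g • w g = g • ((g⁻¹ * t * g) • w g) := by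
          rw [smul_smul, smul_smul]
          congr 1
          group
      _ = g • w g := by rw [h1]
  · intro v
    have hvs : v ∈ sW W s := htop ▸ AddSubgroup.mem_top v
    obtain ⟨w, hw, rfl⟩ := mem_sW hvs
    refine ⟨fun i => w (s.equivFin.symm i).1, fun i => hw _, ?_⟩
    rw [← Finset.sum_coe_sort s (fun g => g • w g)]
    exact (Equiv.sum_comp s.equivFin.symm (fun g : s => g.1 • w g.1)).symm

end Pool.Agent.H91.KG
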